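import Pool.Agent.L7h38.BQ.Stm

/-! Project BQ of helper38 (MP_9124ab_co): the part `S_AVG` (the trace on the invariants of the
permutations of the batches is the average of the traces). -/

set_option autoImplicit false

open Finset MvPolynomial

namespace Pool.Agent.L7h37.BQ

open Pool.Agent.L7h38.BQ (pc act act_pc gtr inv act_inv gtrInv BP)

theorem pc_fin {σ : Type} [Finite σ] (I : Ideal (MvPolynomial σ ℚ)) (i : ℕ) :
    Module.Finite ℚ (pc I i) := by
  have h1 : Module.Finite ℚ (homogeneousSubmodule σ ℚ i) :=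
    Module.Finite.iff_fg.2 (homogeneousSubmodule_fg σ ℚ i)
  unfold pc
  infer_instance

theorem act_mul {σ : Type} (I : Ideal (MvPolynomial σ ℚ)) (u g : Equiv.Perm σ)
    (hu : I ≤ I.comap (rename u : MvPolynomial σ ℚ →ₐ[ℚ] MvPolynomial σ ℚ))
    (h : I ≤ I.comap (rename g : MvPolynomial σ ℚ →ₐ[ℚ] MvPolynomial σ ℚ))
    (hug : I ≤ I.comap (rename (u * g : Equiv.Perm σ) : MvPolynomial σ ℚ →ₐ[ℚ] MvPolynomial σ ℚ))
    (x : MvPolynomial σ ℚ ⧸ I) : act I (u * g) hug x = act I u hu (act I g h x) := by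
  obtain ⟨p, rfl⟩ := Ideal.Quotient.mk_surjective x
  change Ideal.Quotient.mk I (rename (u * g : Equiv.Perm σ) p) =
    Ideal.Quotient.mk I (rename u (rename g p))
  rw [rename_rename]
  rfl

/-- abstract form: a submodule on which `f` acts, and an averaging operator into it -/
theorem trace_avg {M : Type} [AddCommGroup M] [Module ℚ M] (V W : Submodule ℚ M)
    [Module.Finite ℚ V] (hWV : W ≤ V) (S : V →ₗ[ℚ] V) (hS : ∀ x, (S x : M) ∈ W) (c : ℚ)
    (f : W →ₗ[ℚ] W) (hf : ∀ x : W, (S ⟨x.1, hWV x.2⟩ : M) = c • (f x : M)) :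
    LinearMap.trace ℚ V S = c * LinearMap.trace ℚ W f := by
  have : Module.Finite ℚ W := Submodule.finiteDimensional_of_le hWV
  set ι : W →ₗ[ℚ] V := Submodule.inclusion hWV with hι
  set F : V →ₗ[ℚ] W := (V.subtype ∘ₗ S).codRestrict W hS with hF
  have e1 : ι ∘ₗ F = S := by
    ext x
    rfl
  have e2 : F ∘ₗ ι = c • f := by
    ext x
    exact hf x
  rw [← e1, LinearMap.trace_comp_comm', e2, map_smul, smul_eq_mul]

theorem s_AVG : Pool.Agent.L7h38.BQ.S_AVG := by
  classical
  intro r d I hI g τ hg h hh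
  rw [finsum_eq_sum_of_fintype]
  ext i
  rw [map_smul, smul_eq_mul, map_sum]
  unfold gtrInv gtr
  simp only [PowerSeries.coeff_mk]
  have hfin := pc_fin I i
  rw [← map_sum]
  symm
  refine trace_avg (pc I i) (pc I i ⊓ inv I hI) inf_le_left _ ?_ _ _ ?_
  · intro x
    refine ⟨Subtype.property _, ?_⟩
    intro v hv
    rw [LinearMap.sum_apply, Submodule.coe_sum, map_sum]
    change ∑ u : BP r d, act I v (hI v hv) (act I (u.1 * g) (hh u) x.1) =
      ∑ u : BP r d, act I (u.1 * g) (hh u) x.1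
    refine Fintype.sum_bijective (fun u : BP r d => (⟨v * u.1, fun s => by
      rw [Equiv.Perm.mul_apply, hv, u.2]⟩ : BP r d)) ⟨?_, ?_⟩ _ _ ?_
    · intro u u' e
      exact Subtype.ext (mul_left_cancel (Subtype.mk.inj e))
    · intro u
      have hvi : ∀ s, (v⁻¹ s).1 = s.1 := by
        intro s
        have := hv (v⁻¹ s)
        rw [show v (v⁻¹ s) = s from Equiv.apply_symm_apply v s] at this
        exact this.symm
      refine ⟨⟨v⁻¹ * u.1, fun s => by rw [Equiv.Perm.mul_apply, hvi, u.2]⟩, ?_⟩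
      refine Subtype.ext ?_
      show v * (v⁻¹ * u.1) = u.1
      rw [mul_inv_cancel_left]
    · intro u
      rw [act_mul I u.1 g (hI u.1 u.2) h (hh u)]
      have hvu : ∀ s, ((v * u.1) s).1 = s.1 := fun s => by
        rw [Equiv.Perm.mul_apply, hv, u.2]
      show act I v (hI v hv) (act I u.1 (hI u.1 u.2) (act I g h x.1)) =
        act I ((v * u.1) * g) (hh ⟨v * u.1, hvu⟩) x.1
      rw [act_mul I (v * u.1) g (hI _ hvu) h, act_mul I v u.1 (hI v hv) (hI u.1 u.2) (hI _ hvu)]
  · intro x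
    rw [LinearMap.sum_apply, Submodule.coe_sum]
    change ∑ u : BP r d, act I (u.1 * g) (hh u) x.1 = _
    have hx := act_inv I hI g τ hg h i x.1 x.2
    have : ∀ u : BP r d, act I (u.1 * g) (hh u) x.1 = act I g h x.1 := by
      intro u
      rw [act_mul I u.1 g (hI u.1 u.2) h (hh u)]
      exact hx.2 u.1 u.2
    rw [Finset.sum_congr rfl (fun u _ => this u), Finset.sum_const, Finset.card_univ,
      ← Nat.card_eq_fintype_card, ← Nat.cast_smul_eq_nsmul ℚ]
    rfl

end Pool.Agent.L7h37.BQ
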