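import Pool.Agent.L7h38.BQ.Stm

/-! Project BQ of helper38 (MP_9124ab_co): the parts `S_FIXA` and `S_FIXB` (functions which are constant on
the cycles of a permutation; generating functions). -/

set_option autoImplicit false

open Finset

namespace Pool.Agent.L7h37.BQ

open Pool.Agent.L7h38.BQ (FixS Cyc len cp)

/-- the generating function of the tuples is the product of the generating functions -/
theorem gf_prod {ι : Type} [Fintype ι] [DecidableEq ι] (Y : ι → Type) (deg : ∀ l, Y l → ℕ)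
    (hfin : ∀ l i, Finite {y : Y l // deg l y = i}) :
    PowerSeries.mk (fun i => (Nat.card {x : ∀ l, Y l // ∑ l, deg l (x l) = i} : ℚ)) =
      ∏ l, PowerSeries.mk (fun i => (Nat.card {y : Y l // deg l y = i} : ℚ)) := by
  ext n
  rw [PowerSeries.coeff_mk, PowerSeries.coeff_prod]
  simp only [PowerSeries.coeff_mk]
  have key : Nat.card {x : ∀ l, Y l // ∑ l, deg l (x l) = n} =
      ∑ m ∈ (Finset.univ : Finset ι).finsuppAntidiag n, ∏ l, Nat.card {y : Y l // deg l y = m l} := by
    have e1 : Nat.card (Σ m : {m : ι →₀ ℕ // m ∈ (Finset.univ : Finset ι).finsuppAntidiag n},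
        ∀ l, {y : Y l // deg l y = m.1 l}) =
        ∑ m ∈ (Finset.univ : Finset ι).finsuppAntidiag n, ∏ l, Nat.card {y : Y l // deg l y = m l} := by
      have : ∀ m : {m : ι →₀ ℕ // m ∈ (Finset.univ : Finset ι).finsuppAntidiag n},
          Finite (∀ l, {y : Y l // deg l y = m.1 l}) := fun m => by
        have : ∀ l, Finite {y : Y l // deg l y = m.1 l} := fun l => hfin l _
        infer_instance
      rw [Nat.card_sigma]
      rw [← Finset.sum_coe_sort ((Finset.univ : Finset ι).finsuppAntidiag n)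
        (fun m => ∏ l, Nat.card {y : Y l // deg l y = m l})]
      refine Finset.sum_congr rfl fun m _ => ?_
      rw [Nat.card_pi]
    rw [← e1]
    symm
    refine Nat.card_eq_of_bijective (fun z => ⟨fun l => (z.2 l).1, ?_⟩) ⟨?_, ?_⟩
    · have h := z.1.2
      rw [Finset.mem_finsuppAntidiag] at h
      refine Eq.trans ?_ h.1
      exact Finset.sum_congr rfl fun l _ => (z.2 l).2
    · rintro ⟨⟨m, hm⟩, z⟩ ⟨⟨m', hm'⟩, z'⟩ h
      have h1 : ∀ l, (z l).1 = (z' l).1 := fun l => congrFun (Subtype.mk.inj h) l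
      have h2 : m = m' := by
        ext l
        have a1 := (z l).2
        have a2 := (z' l).2
        rw [h1 l] at a1
        exact a1.symm.trans a2
      subst h2
      have h3 : z = z' := by
        funext l
        exact Subtype.ext (h1 l)
      subst h3
      rfl
    · rintro ⟨x, hx⟩
      refine ⟨⟨⟨Finsupp.equivFunOnFinite.symm (fun l => deg l (x l)), ?_⟩, fun l => ⟨x l, rfl⟩⟩, rfl⟩
      rw [Finset.mem_finsuppAntidiag]
      refine ⟨?_, Finset.subset_univ _⟩
      simpa using hx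
  rw [key]
  push_cast
  rfl

/-- the geometric series -/
theorem geom (w : ℕ) (hw : 1 ≤ w) :
    PowerSeries.mk (fun i => (Nat.card {k : ℕ // w * k = i} : ℚ)) * (1 - PowerSeries.X ^ w) = 1 := by
  have hc : ∀ i, Nat.card {k : ℕ // w * k = i} = if w ∣ i then 1 else 0 := by
    intro i
    split_ifs with h
    · obtain ⟨k, rfl⟩ := h
      rw [Nat.card_eq_one_iff_exists]
      refine ⟨⟨k, rfl⟩, ?_⟩
      rintro ⟨k', hk'⟩
      exact Subtype.ext (Nat.eq_of_mul_eq_mul_left (by omega) hk')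
    · rw [Nat.card_eq_zero]
      left
      exact ⟨fun k => h ⟨k.1, k.2.symm⟩⟩
  ext n
  rw [mul_sub, mul_one, map_sub, PowerSeries.coeff_mul_X_pow', PowerSeries.coeff_one]
  simp only [PowerSeries.coeff_mk, hc]
  by_cases hn : w ≤ n
  · have e : w ∣ n - w ↔ w ∣ n := by
      constructor
      · intro h
        have := dvd_add h (dvd_refl w)
        rwa [Nat.sub_add_cancel hn] at this
      · intro h
        exact Nat.dvd_sub h (dvd_refl w)
    have h0 : n ≠ 0 := by omega
    simp [hn, e, h0]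
  · rcases Nat.eq_zero_or_pos n with h0 | h0
    · subst h0
      simp [hn]
    · have h1 : ¬ w ∣ n := fun h => hn (Nat.le_of_dvd h0 h)
      have h2 : n ≠ 0 := by omega
      simp [hn, h1, h2]

/-- finiteness -/
theorem fin_wt {σ : Type} [Fintype σ] (P : (σ → ℕ) → Prop) (a : σ → ℕ) (ha : ∀ s, 1 ≤ a s) (i : ℕ) :
    Finite {μ : σ → ℕ // P μ ∧ ∑ s, a s * μ s = i} := by
  have hb : ∀ μ : {μ : σ → ℕ // P μ ∧ ∑ s, a s * μ s = i}, ∀ s, μ.1 s < i + 1 := by
    intro μ s
    have h1 : a s * μ.1 s ≤ i := by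
      refine le_trans ?_ μ.2.2.le
      exact Finset.single_le_sum (f := fun s => a s * μ.1 s) (fun _ _ => Nat.zero_le _)
        (Finset.mem_univ s)
    have h2 : μ.1 s ≤ a s * μ.1 s := Nat.le_mul_of_pos_left _ (ha s)
    omega
  refine Finite.of_injective (β := σ → Fin (i + 1)) (fun μ s => ⟨μ.1 s, hb μ s⟩) ?_
  intro μ μ' h
  refine Subtype.ext (funext fun s => ?_)
  have := congrFun h s
  exact Fin.mk.inj this

theorem s_FIXA : Pool.Agent.L7h38.BQ.S_FIXA := by
  classical
  intro α _ τ a ha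
  let : Fintype (Cyc τ) := Fintype.ofFinite _
  set pr : α → Cyc τ := fun x => (⟦x⟧ : Cyc τ) with hpr
  have hlen : ∀ ω : Cyc τ, len ω = (Finset.univ.filter (fun x => pr x = ω)).card := by
    intro ω
    unfold len
    rw [Nat.card_eq_fintype_card, Fintype.card_subtype]
  have hlen1 : ∀ ω : Cyc τ, 1 ≤ len ω := by
    intro ω
    obtain ⟨x, hx⟩ := Quotient.exists_rep ω
    rw [hlen]
    exact Finset.card_pos.2 ⟨x, Finset.mem_filter.2 ⟨Finset.mem_univ _, hx⟩⟩
  have hsum : ∀ ν : Cyc τ → ℕ, ∑ s, a * ν (pr s) = ∑ ω, a * len ω * ν ω := by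
    intro ν
    rw [← Finset.sum_fiberwise Finset.univ pr]
    refine Finset.sum_congr rfl fun ω _ => ?_
    rw [Finset.sum_congr rfl (g := fun _ => a * ν ω)
      (fun s hs => by rw [(Finset.mem_filter.1 hs).2])]
    rw [Finset.sum_const, hlen, smul_eq_mul]
    ring
  have hF : FixS τ (fun _ => a) =
      PowerSeries.mk (fun i => (Nat.card {ν : Cyc τ → ℕ // ∑ ω, a * len ω * ν ω = i} : ℚ)) := by
    unfold FixS
    ext i
    rw [PowerSeries.coeff_mk, PowerSeries.coeff_mk]
    congr 1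
    symm
    refine Nat.card_eq_of_bijective (fun ν => ⟨fun s => ν.1 (pr s), ?_, ?_⟩) ⟨?_, ?_⟩
    · intro s
      have : pr (τ s) = pr s := Quotient.sound ((Equiv.Perm.sameCycle_apply_left).2
        (Equiv.Perm.SameCycle.refl τ s))
      show ν.1 (pr (τ s)) = ν.1 (pr s)
      rw [this]
    · rw [hsum]
      exact ν.2
    · intro ν ν' h
      refine Subtype.ext (funext fun ω => ?_)
      obtain ⟨x, rfl⟩ := Quotient.exists_rep ω
      exact congrFun (Subtype.mk.inj h) x
    · rintro ⟨μ, h1, h2⟩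
      have hz : ∀ k : ℤ, ∀ x, μ ((τ ^ k) x) = μ x := by
        have hn : ∀ k : ℕ, ∀ x, μ ((τ ^ k) x) = μ x := by
          intro k
          induction k with
          | zero => intro x; simp
          | succ k ih =>
            intro x
            rw [pow_succ', Equiv.Perm.mul_apply, h1, ih]
        intro k x
        rcases Int.eq_nat_or_neg k with ⟨n, rfl | rfl⟩
        · rw [zpow_natCast]
          exact hn n x
        · have := hn n ((τ ^ (-(n : ℤ))) x)
          rw [← this, ← zpow_natCast, ← Equiv.Perm.mul_apply, ← zpow_add]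
          simp
      have hlift : ∀ x y : α, Equiv.Perm.SameCycle τ x y → μ x = μ y := by
        rintro x y ⟨k, hk⟩
        rw [← hk, hz]
      refine ⟨⟨Quotient.lift μ hlift, ?_⟩, ?_⟩
      · rw [← hsum, ← h2]
        rfl
      · rfl
  rw [hF]
  have hP := gf_prod (ι := Cyc τ) (fun _ => ℕ) (fun ω k => a * len ω * k) (by
    intro ω i
    have hw : 0 < a * len ω := Nat.mul_pos ha (hlen1 ω)
    refine Finite.of_injective (β := Fin (i + 1)) (fun k => ⟨k.1, ?_⟩) ?_
    · have h1 := k.2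
      have h2 : k.1 ≤ a * len ω * k.1 := Nat.le_mul_of_pos_left _ hw
      have h3 : k.1 ≤ i := h2.trans h1.le
      omega
    · intro k k' h
      exact Subtype.ext (Fin.mk.inj h))
  rw [hP]
  unfold cp
  rw [finprod_eq_prod_of_fintype, ← Finset.prod_mul_distrib]
  refine Finset.prod_eq_one fun ω _ => ?_
  exact geom (a * len ω) (Nat.mul_pos ha (hlen1 ω))

theorem s_FIXB : Pool.Agent.L7h38.BQ.S_FIXB := by
  classical
  intro r d τ w hw
  have hP := gf_prod (ι := Fin d) (fun _ => {μ : Fin r → ℕ // ∀ s, μ (τ s) = μ s})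
    (fun l μ => ∑ s, w l * μ.1 s) (by
    intro l i
    have := fin_wt (fun μ : Fin r → ℕ => ∀ s, μ (τ s) = μ s) (fun _ => w l) (fun _ => hw l) i
    refine Finite.of_injective (β := {μ : Fin r → ℕ // (∀ s, μ (τ s) = μ s) ∧
      ∑ s, w l * μ s = i}) (fun y => ⟨y.1.1, y.1.2, y.2⟩) ?_
    intro y y' h
    exact Subtype.ext (Subtype.ext (Subtype.mk.inj h)))
  have e1 : ∏ l, PowerSeries.mk (fun i => (Nat.card
      {y : {μ : Fin r → ℕ // ∀ s, μ (τ s) = μ s} // ∑ s, w l * y.1 s = i} : ℚ)) =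
      ∏ l, FixS τ (fun _ => w l) := by
    refine Finset.prod_congr rfl fun l _ => ?_
    unfold FixS
    ext i
    rw [PowerSeries.coeff_mk, PowerSeries.coeff_mk]
    congr 1
    refine Nat.card_eq_of_bijective (fun y => ⟨y.1.1, y.1.2, y.2⟩) ⟨?_, ?_⟩
    · intro y y' h
      exact Subtype.ext (Subtype.ext (Subtype.mk.inj h))
    · rintro ⟨μ, h1, h2⟩
      exact ⟨⟨⟨μ, h1⟩, h2⟩, rfl⟩
  rw [← e1, ← hP]
  unfold FixS
  ext i
  rw [PowerSeries.coeff_mk, PowerSeries.coeff_mk]
  congr 1
  symm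
  have hsum : ∀ x : Fin d → Fin r → ℕ, ∑ s : Fin r × Fin d, w s.2 * x s.2 s.1 =
      ∑ l, ∑ s, w l * x l s := by
    intro x
    rw [Fintype.sum_prod_type, Finset.sum_comm]
  refine Nat.card_eq_of_bijective (fun x => ⟨fun s => (x.1 s.2).1 s.1, ?_, ?_⟩) ⟨?_, ?_⟩
  · intro s
    exact (x.1 s.2).2 s.1
  · rw [hsum (fun l s => (x.1 l).1 s)]
    exact x.2
  · intro x x' h
    refine Subtype.ext (funext fun l => Subtype.ext (funext fun s => ?_))
    exact congrFun (Subtype.mk.inj h) (s, l)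
  · rintro ⟨μ, h1, h2⟩
    refine ⟨⟨fun l => ⟨fun s => μ (s, l), fun s => h1 (s, l)⟩, ?_⟩, ?_⟩
    · rw [← h2]
      exact (hsum (fun l s => μ (s, l))).symm
    · rfl

end Pool.Agent.L7h37.BQ
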