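import Pool.Agent.L7h35.BQ.Hs

/-! Project BQ of helper38 (MP_9124ab_co): the parts `S_TRF` and `S_GEN`. -/

set_option autoImplicit false

open Finset MvPolynomial

namespace Pool.Agent.L7h37.BQ

open Pool.Agent.L7h38.BQ (hs bat J fm)
open Pool.Agent.L7h35.BQ (hs_insert hs_empty hs_zero rename_hs)

theorem bat_map {I σ σ' : Type} [DecidableEq I] [Fintype σ] [DecidableEq σ] [Fintype σ']
    [DecidableEq σ'] (e : σ ≃ σ') (β : σ → I) (i : I) :
    (bat β i).map e.toEmbedding = bat (β ∘ e.symm) i := by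
  ext s
  simp only [bat, Finset.mem_map_equiv, Finset.mem_filter, Finset.mem_univ, true_and,
    Function.comp]

theorem s_TRF : Pool.Agent.L7h38.BQ.S_TRF := by
  intro I σ σ' _ _ _ _ _ e β κ m
  have hh : ∀ i j, rename e (hs (bat β i) j) = hs (bat (β ∘ e.symm) i) j := by
    intro i j
    rw [← bat_map e β i]
    exact rename_hs e.toEmbedding (bat β i) j
  have hc : ∀ i, (bat (β ∘ e.symm) i).card = (bat β i).card := by
    intro i
    rw [← bat_map e β i, Finset.card_map]
  have he : ∀ j, rename e (esymm σ ℚ j) = esymm σ' ℚ j := fun j => rename_esymm σ ℚ j e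
  have hcard : Fintype.card σ = Fintype.card σ' := Fintype.card_congr e
  unfold J
  rw [Ideal.map_span]
  congr 1
  ext f
  constructor
  · rintro ⟨g, ⟨j, hj, rfl⟩ | ⟨i, j, hj, rfl⟩, rfl⟩
    · left
      exact ⟨j, by rw [← hcard]; exact hj, he j⟩
    · right
      exact ⟨i, j, by rw [hc]; exact hj, hh i j⟩
  · rintro (⟨j, hj, rfl⟩ | ⟨i, j, hj, rfl⟩)
    · exact ⟨esymm σ ℚ j, Or.inl ⟨j, by rw [hcard]; exact hj, rfl⟩, he j⟩
    · exact ⟨hs (bat β i) j, Or.inr ⟨i, j, by rw [← hc]; exact hj, rfl⟩, hh i j⟩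

/-- the ideal contains the complete homogeneous polynomials of smaller sets of variables -/
theorem hs_sub {σ : Type} [DecidableEq σ] (Jd : Ideal (MvPolynomial σ ℚ)) (A : Finset σ) (κ : ℕ)
    (hA : A.card ≤ κ) (hJ : ∀ j, κ + 1 ≤ j + A.card → j ≤ κ → hs A j ∈ Jd) :
    ∀ (c : ℕ) (B : Finset σ), B ⊆ A → (A \ B).card = c → ∀ j, κ + 1 ≤ j + B.card → j ≤ κ →
      hs B j ∈ Jd := by
  intro c
  induction c with
  | zero =>
    intro B hB hc j h1 h2
    have : A = B :=
      Finset.Subset.antisymm (Finset.sdiff_eq_empty_iff_subset.1 (Finset.card_eq_zero.1 hc)) hB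
    subst this
    exact hJ j h1 h2
  | succ c ih =>
    intro B hB hc j h1 h2
    obtain ⟨y, hy⟩ : (A \ B).Nonempty := Finset.card_pos.1 (by omega)
    obtain ⟨hyA, hyB⟩ := Finset.mem_sdiff.1 hy
    have hB' : insert y B ⊆ A := Finset.insert_subset hyA hB
    have hcB : (insert y B).card = B.card + 1 := Finset.card_insert_of_notMem hyB
    have hc' : (A \ insert y B).card = c := by
      rw [Finset.card_sdiff_of_subset hB', hcB]
      rw [Finset.card_sdiff_of_subset hB] at hc
      omega
    have hle : B.card ≤ A.card := Finset.card_le_card hB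
    obtain ⟨j', rfl⟩ : ∃ j', j = j' + 1 := ⟨j - 1, by omega⟩
    have e := hs_insert B y hyB j'
    have a1 := ih (insert y B) hB' hc' (j' + 1) (by omega) h2
    have a2 := ih (insert y B) hB' hc' j' (by omega) (by omega)
    have : hs B (j' + 1) = hs (insert y B) (j' + 1) - X y * hs (insert y B) j' := by
      rw [e]; ring
    rw [this]
    exact Ideal.sub_mem _ a1 (Ideal.mul_mem_left _ _ a2)

theorem hs_all {σ : Type} [DecidableEq σ] (Jd : Ideal (MvPolynomial σ ℚ)) (A : Finset σ) (κ : ℕ)
    (hA : A.card ≤ κ) (hJ : ∀ j, κ + 1 ≤ j + A.card → j ≤ κ → hs A j ∈ Jd) :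
    ∀ (B : Finset σ), B ⊆ A → ∀ j, κ + 1 ≤ j + B.card → hs B j ∈ Jd := by
  intro B
  induction B using Finset.induction_on with
  | empty =>
    intro _ j hj
    rw [Finset.card_empty] at hj
    rw [hs_empty j (by omega)]
    exact Ideal.zero_mem _
  | insert y B hy ih =>
    intro hB j
    have hB1 : B ⊆ A := (Finset.subset_insert y B).trans hB
    have hcB : (insert y B).card = B.card + 1 := Finset.card_insert_of_notMem hy
    induction j with
    | zero =>
      intro hj
      exact hs_sub Jd A κ hA hJ _ (insert y B) hB rfl 0 hj (Nat.zero_le _)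
    | succ j ihj =>
      intro hj
      rcases Nat.lt_or_ge κ (j + 1) with h | h
      · rw [hs_insert B y hy j]
        refine Ideal.add_mem _ (ih hB1 (j + 1) (by omega)) (Ideal.mul_mem_left _ _ ?_)
        exact ihj (by omega)
      · exact hs_sub Jd A κ hA hJ _ (insert y B) hB rfl (j + 1) hj h

theorem card_bat (r d : ℕ) (i : Fin r) :
    (bat (Prod.fst : Fin r × Fin d → Fin r) i).card = d := by
  have : bat (Prod.fst : Fin r × Fin d → Fin r) i = ({i} : Finset (Fin r)) ×ˢ Finset.univ := by
    ext s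
    rw [Finset.mem_product, Finset.mem_singleton]
    simp only [bat, Finset.mem_filter, Finset.mem_univ, true_and, and_true]
  rw [this, Finset.card_product]
  simp

theorem esymm_zero (σ : Type) [Fintype σ] (j : ℕ) (hj : Fintype.card σ < j) :
    esymm σ ℚ j = 0 := by
  unfold esymm
  rw [Finset.powersetCard_eq_empty.2 (by rw [Finset.card_univ]; exact hj)]
  exact Finset.sum_empty

theorem s_GEN : Pool.Agent.L7h38.BQ.S_GEN := by
  intro r d k hd hdk
  have hcard : Fintype.card (Fin r × Fin d) = r * d := by simp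
  constructor
  · apply le_antisymm
    · unfold J
      rw [Ideal.span_le]
      rintro f (⟨j, hj, rfl⟩ | ⟨i, j, hj, rfl⟩)
      · rw [esymm_zero _ j (by omega)]
        exact Ideal.zero_mem _
      · refine hs_all _ (bat Prod.fst i) k (by rw [card_bat]; exact hdk) ?_ (bat Prod.fst i)
          (Finset.Subset.refl _) j hj
        intro j h1 h2
        rw [card_bat] at h1
        refine Ideal.subset_span ⟨(i, ⟨k - j, by omega⟩), ?_⟩
        show hs (bat Prod.fst i) (k - (k - j)) = hs (bat Prod.fst i) j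
        rw [Nat.sub_sub_self h2]
    · rw [Ideal.span_le]
      rintro f ⟨s, rfl⟩
      refine Ideal.subset_span (Or.inr ⟨s.1, k - s.2, ?_, rfl⟩)
      rw [card_bat]
      have := s.2.2
      show k + 1 ≤ k - (s.2 : ℕ) + d
      omega
  · apply le_antisymm
    · unfold J
      rw [Ideal.span_le]
      rintro f (⟨j, hj, rfl⟩ | ⟨i, j, hj, rfl⟩)
      · rw [hcard] at hj
        rcases Nat.lt_or_ge (r * d) j with h | h
        · rw [esymm_zero _ j (by omega)]
          exact Ideal.zero_mem _
        · exact Ideal.subset_span (Or.inl ⟨j, hj, h, rfl⟩)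
      · refine hs_all _ (bat Prod.fst i) k (by rw [card_bat]; exact hdk) ?_ (bat Prod.fst i)
          (Finset.Subset.refl _) j hj
        intro j h1 h2
        rw [card_bat] at h1
        exact Ideal.subset_span (Or.inr ⟨i, j, h1, h2, rfl⟩)
    · rw [Ideal.span_le]
      rintro f (⟨j, h1, h2, rfl⟩ | ⟨i, j, h1, h2, rfl⟩)
      · exact Ideal.subset_span (Or.inl ⟨j, by rw [hcard]; exact h1, rfl⟩)
      · exact Ideal.subset_span (Or.inr ⟨i, j, by rw [card_bat]; exact h1, rfl⟩)

end Pool.Agent.L7h37.BQ
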